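import Pool.Agent.Helper95.LN.Stmts

set_option autoImplicit false

namespace Pool.Agent.Helper97.LN

open MeasureTheory Pool.Agent.Helper95.PW Pool.Agent.Helper95.LN

theorem nr_neg (y : R3) : nr (-y) = nr y := by
  unfold nr
  simp only [Pi.neg_apply, neg_sq]

theorem ph_neg (a : ℝ) (y : R3) : ph a (-y) = ph a y := by
  unfold ph
  rw [nr_neg]

theorem et_neg (a : ℝ) (y : R3) : et a (-y) = et a y := by
  unfold et
  rw [nr_neg]

theorem Kf_neg (a : ℝ) (z : R3) : Kf a (-z) = Kf a z := by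
  unfold Kf
  congr 1
  rw [← integral_neg_eq_self (fun w : R3 => ph a (w - z) * et a w)]
  refine integral_congr_ae (Filter.Eventually.of_forall fun w => ?_)
  change ph a (w - -z) * et a w = ph a (-w - z) * et a (-w)
  rw [et_neg, ← ph_neg a (-w - z)]
  congr 2
  abel

theorem sym_sum {n : ℕ} (f : Fin n → Fin n → ℝ) (hf : ∀ k l, f k l = f l k) :
    ∑ k, ∑ l, f k l = (∑ k, f k k) + 2 * ∑ k, ∑ l, if k < l then f k l else 0 := by
  have h1 : ∀ k l, f k l = (if k = l then f k k else 0) + (if k < l then f k l else 0) +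
      (if l < k then f k l else 0) := by
    intro k l
    rcases lt_trichotomy k l with h | h | h
    · rw [if_neg h.ne, if_pos h, if_neg h.le.not_gt]; ring
    · subst h
      rw [if_pos rfl, if_neg (lt_irrefl _)]; ring
    · rw [if_neg h.ne', if_neg h.le.not_gt, if_pos h]; ring
  have h2 : ∑ k, ∑ l, (if l < k then f k l else 0) =
      ∑ k, ∑ l, (if k < l then f k l else 0) := by
    rw [Finset.sum_comm]
    refine Finset.sum_congr rfl fun l _ => Finset.sum_congr rfl fun k _ => ?_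
    rw [hf k l]
  have h3 : ∑ k, ∑ l, (if k = l then f k k else 0) = ∑ k, f k k := by
    refine Finset.sum_congr rfl fun k _ => ?_
    rw [Finset.sum_ite_eq Finset.univ k]
    simp
  calc ∑ k, ∑ l, f k l = ∑ k, ∑ l, ((if k = l then f k k else 0) +
        (if k < l then f k l else 0) + (if l < k then f k l else 0)) :=
        Finset.sum_congr rfl fun k _ => Finset.sum_congr rfl fun l _ => h1 k l
    _ = (∑ k, f k k) + (∑ k, ∑ l, if k < l then f k l else 0) +
        ∑ k, ∑ l, (if k < l then f k l else 0) := by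
        simp only [Finset.sum_add_distrib]
        rw [h3, h2]
    _ = _ := by ring

theorem ES1 (h1 : ST_DEX) (h2 : ST_KK) (_h3 : ST_PHA) (_h4 : ST_PHC) : ST_ES1 := by
  intro z d hz hd
  refine ⟨8 * (1 + z) / d, by positivity, ?_⟩
  intro n M X Z x hS hN hZ hx
  obtain ⟨hZ0, hZn⟩ := hN
  obtain ⟨hx1, hx2⟩ := hx
  have hb : 0 < d / 8 := by positivity
  obtain ⟨-, hD⟩ := h1 (d / 8) n M X Z x hb
  have K0 : ∀ y, 0 ≤ Kf (d / 8) y := fun y => (h2 (d / 8) y hb).2.2.1
  have K2 : ∀ y, Kf (d / 8) y ≤ 2 / (d / 8) := fun y => (h2 (d / 8) y hb).2.2.2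
  have K1 : ∀ y, nr y ≠ 0 → Kf (d / 8) y ≤ 1 / nr y := fun y => (h2 (d / 8) y hb).2.1
  have Kq : ∀ y, 2 * (d / 8) ≤ nr y → Kf (d / 8) y = 1 / nr y := fun y => (h2 (d / 8) y hb).1
  have hKn : ∀ u v : R3, Kf (d / 8) (u - v) = Kf (d / 8) (v - u) := fun u v => by
    rw [← Kf_neg, neg_sub]
  set b := d / 8 with hbdef
  have e1 : ∑ k, ∑ l, Kf b (x k - x l) = n * Kf b 0 +
      2 * ∑ k, ∑ l, if k < l then Kf b (x k - x l) else 0 := by
    rw [sym_sum (fun k l => Kf b (x k - x l)) fun k l => hKn _ _]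
    simp
  have e2 : ∑ i, ∑ j, Z i * Z j * Kf b (X i - X j) = (∑ i, Z i * Z i * Kf b 0) +
      2 * ∑ i, ∑ j, if i < j then Z i * Z j * Kf b (X i - X j) else 0 := by
    rw [sym_sum (fun i j => Z i * Z j * Kf b (X i - X j)) fun k l => by
      rw [hKn, mul_comm (Z k)]]
    simp
  -- repulsion
  have e3 : Rem b x = rep x - ∑ k, ∑ l, if k < l then Kf b (x k - x l) else 0 := by
    unfold Rem rep
    rw [← Finset.sum_sub_distrib]
    refine Finset.sum_congr rfl fun k _ => ?_
    rw [← Finset.sum_sub_distrib]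
    refine Finset.sum_congr rfl fun l _ => ?_
    split_ifs <;> ring
  -- nuclei
  have e4 : ∑ i, ∑ j, (if i < j then Z i * Z j * Kf b (X i - X j) else 0) ≤ nucR X Z := by
    unfold nucR
    refine Finset.sum_le_sum fun i _ => Finset.sum_le_sum fun j _ => ?_
    split_ifs with h
    · have h5 : nr (X i - X j) ≠ 0 := by
        have := hS i j h.ne
        intro h6
        rw [h6] at this
        linarith
      have h6 := mul_le_mul_of_nonneg_left (K1 _ h5) (mul_nonneg (hZ0 i) (hZ0 j))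
      rwa [mul_one_div] at h6
    · exact le_rfl
  -- attraction
  have e5 : ∀ k j, Z j / nr (x k - X j) - Z j * Kf b (x k - X j) ≤
      z * (if nr (x k - X j) < d then 1 / nr (x k - X j) else 0) := by
    intro k j
    have h5 := hx2 k j
    have h6 := K1 _ h5
    have h7 := K0 (x k - X j)
    have h8 : Z j / nr (x k - X j) - Z j * Kf b (x k - X j) =
        Z j * (1 / nr (x k - X j) - Kf b (x k - X j)) := by ring
    rw [h8]
    split_ifs with h
    · calc Z j * (1 / nr (x k - X j) - Kf b (x k - X j))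
          ≤ z * (1 / nr (x k - X j) - Kf b (x k - X j)) :=
            mul_le_mul_of_nonneg_right (hZ j) (by linarith)
        _ ≤ z * (1 / nr (x k - X j)) := mul_le_mul_of_nonneg_left (by linarith) hz
    · rw [Kq _ (by rw [hbdef]; linarith [not_lt.1 h])]
      simp
  have e6 : (∑ k, pot X Z (x k)) - ∑ k, ∑ j, Z j * Kf b (x k - X j) ≤
      z * ∑ k, near1 X d (x k) := by
    unfold pot near1
    rw [← Finset.sum_sub_distrib, Finset.mul_sum]
    refine Finset.sum_le_sum fun k _ => ?_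
    rw [← Finset.sum_sub_distrib, Finset.mul_sum]
    exact Finset.sum_le_sum fun j _ => e5 k j
  -- self energies
  have hk0 : Kf b 0 ≤ 2 / b := K2 0
  have hk1 : 0 ≤ Kf b 0 := K0 0
  have e7 : ∑ i, Z i * Z i * Kf b 0 ≤ z * n * (2 / b) := by
    calc ∑ i, Z i * Z i * Kf b 0 ≤ ∑ i, z * Z i * (2 / b) := by
          refine Finset.sum_le_sum fun i _ => ?_
          exact mul_le_mul (mul_le_mul_of_nonneg_right (hZ i) (hZ0 i)) hk0 hk1
            (mul_nonneg hz (hZ0 i))
      _ = z * n * (2 / b) := by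
          rw [← Finset.sum_mul, ← Finset.mul_sum, hZn]
  have e8 : (n : ℝ) * Kf b 0 ≤ n * (2 / b) := mul_le_mul_of_nonneg_left hk0 (Nat.cast_nonneg _)
  have e9 : (2 : ℝ) / b = 16 / d := by
    rw [hbdef]; field_simp; norm_num
  rw [e9] at e7 e8
  have e10 : 8 * (1 + z) / d * (n : ℝ) = 1 / 2 * (n * (16 / d)) + 1 / 2 * (z * n * (16 / d)) := by
    field_simp; ring
  unfold Vc
  rw [hD, e1, e2, e3, e10]
  linarith

end Pool.Agent.Helper97.LN
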